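import Pool.Agent.H923R2.FP.Stubs

/-! Task ABS2: gadgets of a reduced free product. -/

set_option autoImplicit false

open scoped ComplexConjugate ComplexOrder

noncomputable section

namespace Pool.Agent.H923R2.FP.T_ABS2

open Pool.Agent.H923R2.FP

theorem Uc_map {B C : Type} [Ring B] [Ring C] (g : B →+* C) (x : B) (m : ℕ) :
    Uc (g x) m = g (Uc x m) := by
  induction m using Nat.strong_induction_on with
  | _ m ih =>
    match m with
    | 0 => exact (map_one g).symm
    | 1 => rfl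
    | m + 2 =>
      show g x * Uc (g x) (m + 1) - Uc (g x) m = g (x * Uc x (m + 1) - Uc x m)
      rw [ih (m + 1) (by omega), ih m (by omega), map_sub, map_mul]

/-- image of unitaries under a star homomorphism -/
def umap {B C : Type} [Ring B] [StarRing B] [Algebra ℂ B] [Ring C] [StarRing C] [Algebra ℂ C]
    (g : B →⋆ₐ[ℂ] C) : unitary B →* unitary C where
  toFun u := ⟨g (u : B), by
    have h := Unitary.mem_iff.1 u.2
    rw [Unitary.mem_iff, ← map_star, ← map_mul, ← map_mul, h.1, h.2, map_one]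
    exact ⟨rfl, rfl⟩⟩
  map_one' := Subtype.ext (map_one g)
  map_mul' u v := Subtype.ext (map_mul g (u : B) (v : B))

theorem t_ABS2 (hPHI : S_PHI) (hG : S_GADC) : S_ABS2 := by
  intro J D _ t i0 i1 hne c0 c1 h0 h1 A _ τ e f hR p
  obtain ⟨φ, hφ, _, hφ2⟩ := hPHI
  obtain ⟨u, X, hX1, hX2, hu, hX3, hX4⟩ := hG φ hφ hφ2 p
  have hmem : ∀ y : D i1, e i1 y ∈ RR e i0 := by
    intro y
    have h2 : (e i1).range ≤ RR e i0 :=
      le_iSup (fun k : {k // k ≠ i0} => (e k.1).range) ⟨i1, hne.symm⟩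
    exact h2 ⟨y, rfl⟩
  let g1 : C(unitInterval, ℂ) →⋆ₐ[ℂ] RR e i0 :=
    ((e i1).comp c1).codRestrict (RR e i0) (fun x => hmem (c1 x))
  have hg1 : ∀ y, ((RR e i0).subtype (g1 y) : A) = e i1 (c1 y) := fun y => rfl
  refine ⟨umap c0 u, umap g1 u, g1 X, ?_⟩
  have hUc : ∀ m, Uc (g1 X) m = g1 (Uc X m) := fun m => Uc_map (g1 : C(unitInterval, ℂ) →+* RR e i0) X m
  refine ⟨?_, ?_, ?_, ?_, ?_⟩
  · intro n hn
    have h2 : ((umap c0 u ^ n : unitary (D i0)) : D i0) =
        c0 ((u ^ n : unitary C(unitInterval, ℂ)) : C(unitInterval, ℂ)) := by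
      rw [← map_zpow]
      rfl
    rw [h2, hR.tr, h0]
    exact hu n hn
  · rw [← map_star, hX1]
  · rw [hg1]
    exact ((NonUnitalStarAlgHom.norm_apply_le (e i1) _).trans
      (NonUnitalStarAlgHom.norm_apply_le c1 _)).trans hX2
  · intro m hm
    rw [hUc, hg1, hR.tr, h1]
    exact hX3 m hm
  · intro n hn hnp m
    have h2 : ((umap g1 u ^ n : unitary (RR e i0)) : RR e i0) =
        g1 ((u ^ n : unitary C(unitInterval, ℂ)) : C(unitInterval, ℂ)) := by
      rw [← map_zpow]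
      rfl
    rw [h2, hUc, ← map_mul, hg1, hR.tr, h1]
    exact hX4 n hn hnp m

end Pool.Agent.H923R2.FP.T_ABS2
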